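import Pool.Agent.GSH.SF
import Pool.Agent.GSH.Reduce

/-!
# A relative form of Schützenberger's theorem

`Cl 𝓑` is the closure of a family `𝓑` of languages (with the one-letter words and the empty
word) under Boolean operations and concatenation.
-/

set_option autoImplicit false

namespace Pool.Agent.GSHR

open Pool.Agent.GSH

section Closure

variable {A : Type}

/-- closure under Boolean operations and concatenation -/
inductive Cl (𝓑 : Set (Set (List A))) : Set (List A) → Prop
  | base {X : Set (List A)} (h : X ∈ 𝓑) : Cl 𝓑 X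
  | empty : Cl 𝓑 ∅
  | one : Cl 𝓑 {[]}
  | letter (a : A) : Cl 𝓑 {[a]}
  | compl {X : Set (List A)} (h : Cl 𝓑 X) : Cl 𝓑 Xᶜ
  | union {X Y : Set (List A)} (h : Cl 𝓑 X) (h' : Cl 𝓑 Y) : Cl 𝓑 (X ∪ Y)
  | cat {X Y : Set (List A)} (h : Cl 𝓑 X) (h' : Cl 𝓑 Y) : Cl 𝓑 (GSH.cat X Y)

variable {𝓑 : Set (Set (List A))}

theorem Cl.inter {X Y : Set (List A)} (h : Cl 𝓑 X) (h' : Cl 𝓑 Y) : Cl 𝓑 (X ∩ Y) := by
  have := (h.compl.union h'.compl).compl
  rwa [Set.compl_union, compl_compl, compl_compl] at this

theorem Cl.univ : Cl 𝓑 (Set.univ : Set (List A)) := by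
  have := (Cl.empty (𝓑 := 𝓑)).compl
  rwa [Set.compl_empty] at this

theorem Cl.iUnion {ι : Type*} [Finite ι] {S : ι → Set (List A)} (h : ∀ i, Cl 𝓑 (S i)) :
    Cl 𝓑 (⋃ i, S i) := by
  classical
  have key : ∀ T : Set ι, T.Finite → Cl 𝓑 (⋃ i ∈ T, S i) := by
    intro T hT
    induction T, hT using Set.Finite.induction_on with
    | empty => simpa using Cl.empty
    | @insert a s _ _ ih =>
      rw [Set.biUnion_insert]
      exact (h a).union ih
  have := key Set.univ Set.finite_univ
  simpa using this

theorem Cl.prop (p : Prop) {S : Set (List A)} (h : Cl 𝓑 S) :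
    Cl 𝓑 {w | p ∧ w ∈ S} := by
  by_cases hp : p
  · simpa [hp] using h
  · simpa [hp] using Cl.empty

theorem Cl.over [Finite A] (B : Set A) : Cl 𝓑 {w : List A | ∀ a ∈ w, a ∈ B} := by
  have h1 : Cl 𝓑 (⋃ a : A, {w : List A | a ∉ B ∧ w ∈ GSH.cat (GSH.cat Set.univ {[a]}) Set.univ}) :=
    Cl.iUnion (fun a => Cl.prop _ ((Cl.univ.cat (Cl.letter a)).cat Cl.univ))
  have h2 : {w : List A | ∀ a ∈ w, a ∈ B} =
      (⋃ a : A, {w : List A | a ∉ B ∧ w ∈ GSH.cat (GSH.cat Set.univ {[a]}) Set.univ})ᶜ := by
    ext w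
    simp only [Set.mem_compl_iff, Set.mem_iUnion, not_exists]
    constructor
    · rintro h a ⟨ha, _, ⟨x, _, _, rfl, rfl⟩, y, _, rfl⟩
      exact ha (h a (by simp))
    · intro h a ha
      by_contra hB
      obtain ⟨x, y, rfl⟩ := List.append_of_mem ha
      refine h a ⟨hB, x ++ [a], ⟨x, trivial, [a], rfl, rfl⟩, y, trivial, by simp⟩
  rw [h2]
  exact h1.compl

theorem Cl.ht {n : ℕ} (h𝓑 : ∀ X ∈ 𝓑, Ht n X) {X : Set (List A)} (h : Cl 𝓑 X) : Ht n X := by
  induction h with
  | base h => exact h𝓑 _ h
  | empty => exact Ht.empty n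
  | one => exact Ht.one n
  | letter a => exact Ht.letter n a
  | compl _ ih => exact ih.compl
  | union _ _ ih1 ih2 => exact ih1.union ih2
  | cat _ _ ih1 ih2 => exact ih1.cat ih2

end Closure

section Relative

/-- the languages recognised by the small monoid -/
def Bas {A M N : Type} [Monoid M] [Monoid N] (ρ : M →* N) (f : A → M) : Set (Set (List A)) :=
  {X | ∃ x : N, X = {w : List A | ρ ((w.map f).prod) = x}}

/-- the induced map of the local divisors -/
noncomputable def locMap {M N : Type} [Monoid M] [Monoid N] (ρ : M →* N) (c : M) :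
    LocDiv c →* LocDiv (ρ c) where
  toFun x := ⟨ρ x.1, by
    obtain ⟨y, hy⟩ := x.2.1
    obtain ⟨z, hz⟩ := x.2.2
    exact ⟨⟨ρ y, by rw [hy, map_mul]⟩, ⟨ρ z, by rw [hz, map_mul]⟩⟩⟩
  map_one' := Subtype.ext rfl
  map_mul' x y := by
    apply Subtype.ext
    obtain ⟨z, hz⟩ := x.2.2
    have h1 : (x * y).1 = z * y.1 := LocDiv.mul_val x y hz
    show ρ (x * y).1 = _
    rw [h1, map_mul]
    exact (LocDiv.mul_val (c := ρ c) (x := ⟨ρ x.1, _⟩) (y := ⟨ρ y.1, _⟩) (z := ρ z)
      ((congrArg ρ hz).trans (map_mul ρ z c))).symm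

theorem locMap_val {M N : Type} [Monoid M] [Monoid N] (ρ : M →* N) (c : M) (x : LocDiv c) :
    (locMap ρ c x).1 = ρ x.1 := rfl

theorem card_lt_of_not_isUnit {M : Type} [Monoid M] [Finite M] {c : M} (hc : ¬ IsUnit c) :
    Nat.card (LocDiv c) < Nat.card M := by
  refine Finite.card_subtype_lt (x := (1 : M)) ?_
  rintro ⟨⟨y, hy⟩, ⟨z, hz⟩⟩
  apply hc
  have : z = y := by
    calc z = z * (c * y) := by rw [← hy, mul_one]
      _ = (z * c) * y := (mul_assoc _ _ _).symm
      _ = y := by rw [← hz, one_mul]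
  exact ⟨⟨c, y, hy.symm, by rw [← this, ← hz]⟩, rfl⟩

theorem Sig_cl {A : Type} [Finite A] {M N : Type} [Monoid M] [Finite M] [Monoid N] (ρ : M →* N)
    (f : A → M) (B : Set A) (c : A) (hc : c ∈ B)
    (hB : ∀ m, Cl (Bas ρ f) {w : List A | (∀ a ∈ w, a ∈ B ∧ a ≠ c) ∧ (w.map f).prod = m})
    {K : Set (List M)} (hK : Cl (Bas (locMap ρ (f c)) (LocDiv.psi (f c))) K) :
    Cl (Bas ρ f) (Sig f B c K) := by
  have huniv : Cl (Bas ρ f) (Sig f B c Set.univ) := by
    rw [Sig_univ f B c hc]
    exact (Cl.over B).inter (Cl.one.union (Cl.univ.cat (Cl.letter c)))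
  induction hK with
  | @base X h =>
    obtain ⟨y, rfl⟩ := h
    have : Sig f B c {w : List M | locMap ρ (f c) ((w.map (LocDiv.psi (f c))).prod) = y} =
        Sig f B c Set.univ ∩ ⋃ m : M, {u : List A | ρ (f c) * ρ m = y.1 ∧
          u ∈ {w : List A | ρ ((w.map f).prod) = ρ m}} := by
      ext u
      constructor
      · rintro ⟨ls, h1, h2, h3⟩
        have h2' : locMap ρ (f c)
          (((ls.map (fun v => (v.map f).prod)).map (LocDiv.psi (f c))).prod) = y := h2
        refine ⟨⟨ls, h1, trivial, h3⟩, Set.mem_iUnion.2 ⟨((enc c ls).map f).prod, ?_, ?_⟩⟩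
        · rw [← h2', locMap_val, prod_enc, map_mul]
        · rw [← h3]; exact rfl
      · rintro ⟨⟨ls, h1, _, h3⟩, h4⟩
        obtain ⟨m, h5, h6⟩ := Set.mem_iUnion.1 h4
        refine ⟨ls, h1, ?_, h3⟩
        have h6' : ρ ((u.map f).prod) = ρ m := h6
        show locMap ρ (f c)
          (((ls.map (fun v => (v.map f).prod)).map (LocDiv.psi (f c))).prod) = y
        apply Subtype.ext
        rw [locMap_val, prod_enc, map_mul, h3, h6', h5]
    rw [this]
    exact huniv.inter (Cl.iUnion fun m => Cl.prop _ (Cl.base ⟨ρ m, rfl⟩))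
  | empty =>
    have : Sig f B c ∅ = ∅ := by
      ext u
      simp [Sig]
    rw [this]; exact Cl.empty
  | one =>
    have : Sig f B c {[]} = {[]} := by
      ext u
      constructor
      · rintro ⟨ls, h1, h2, h3⟩
        have h4 : ls.map (fun v => (v.map f).prod) = [] := h2
        rw [List.map_eq_nil_iff] at h4
        subst h4
        exact h3.symm
      · rintro rfl
        exact ⟨[], by simp, by simp, rfl⟩
    rw [this]; exact Cl.one
  | letter m =>
    have : Sig f B c {[m]} =
        GSH.cat {w : List A | (∀ a ∈ w, a ∈ B ∧ a ≠ c) ∧ (w.map f).prod = m} {[c]} := by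
      ext u
      constructor
      · rintro ⟨ls, h1, h2, h3⟩
        have h4 : ls.map (fun v => (v.map f).prod) = [m] := h2
        obtain ⟨v, rfl, hv⟩ := List.map_eq_singleton_iff.1 h4
        refine ⟨v, ⟨h1 v (by simp), hv⟩, [c], rfl, ?_⟩
        rw [← h3]; simp [enc]
      · rintro ⟨v, ⟨h1, h2⟩, _, rfl, rfl⟩
        refine ⟨[v], by simpa using h1, ?_, by simp [enc]⟩
        simp [h2]
    rw [this]; exact (hB m).cat (Cl.letter c)
  | compl _ ih =>
    rw [Sig_compl]
    exact huniv.inter ih.compl
  | @union K L _ _ ih1 ih2 =>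
    have : Sig f B c (K ∪ L) = Sig f B c K ∪ Sig f B c L := by
      ext u
      constructor
      · rintro ⟨ls, h1, h2 | h2, h3⟩
        · exact Or.inl ⟨ls, h1, h2, h3⟩
        · exact Or.inr ⟨ls, h1, h2, h3⟩
      · rintro (⟨ls, h1, h2, h3⟩ | ⟨ls, h1, h2, h3⟩)
        · exact ⟨ls, h1, Or.inl h2, h3⟩
        · exact ⟨ls, h1, Or.inr h2, h3⟩
    rw [this]; exact ih1.union ih2
  | cat _ _ ih1 ih2 =>
    rw [Sig_cat]
    exact ih1.cat ih2

/-- If all letters are units, the small monoid determines the value. -/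
theorem unit_case {A : Type} {M N : Type} [Monoid M] [Finite M] [Monoid N] (ρ : M →* N)
    (f : A → M) (B : Finset A)
    (H : ∀ u : List A, (∀ a ∈ u, a ∈ B) →
      ρ ((u.map f).prod) * ρ ((u.map f).prod) = ρ ((u.map f).prod) →
      ∃ j, (u.map f).prod ^ (j + 1) = (u.map f).prod ^ j)
    (hunit : ∀ a ∈ B, IsUnit (f a)) {w w' : List A} (hw : ∀ a ∈ w, a ∈ B)
    (hw' : ∀ a ∈ w', a ∈ B) (h : ρ ((w.map f).prod) = ρ ((w'.map f).prod)) :
    (w.map f).prod = (w'.map f).prod := by
  have hU : ∀ u : List A, (∀ a ∈ u, a ∈ B) → IsUnit (u.map f).prod := by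
    intro u hu
    induction u with
    | nil => simp
    | cons a u ih =>
      rw [List.map_cons, List.prod_cons]
      exact (hunit a (hu a (by simp))).mul (ih (fun b hb => hu b (by simp [hb])))
  obtain ⟨x, hx⟩ := hU w' hw'
  obtain ⟨k, hk, hk1⟩ := (isOfFinOrder_iff_pow_eq_one.1 (isOfFinOrder_of_finite x))
  obtain ⟨k, rfl⟩ : ∃ d, k = d + 1 := ⟨k - 1, by omega⟩
  have hk2 : (w'.map f).prod ^ (k + 1) = 1 := by
    rw [← hx, ← Units.val_pow_eq_pow_val, hk1, Units.val_one]
  have hrep : ∀ j, ((rep j w').map f).prod = (w'.map f).prod ^ j := by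
    intro j
    induction j with
    | zero => rw [rep_zero]; simp
    | succ j ih => rw [rep_succ, List.map_append, List.prod_append, ih, pow_succ']
  have hrepB : ∀ j, ∀ a ∈ rep j w', a ∈ B := by
    intro j
    induction j with
    | zero => rw [rep_zero]; simp
    | succ j ih =>
      intro a ha
      rw [rep_succ] at ha
      rcases List.mem_append.1 ha with ha | ha
      · exact hw' a ha
      · exact ih a ha
  have hv := hrep k
  have hvU := hU (rep k w') (hrepB k)
  have h1 : (w'.map f).prod * ((rep k w').map f).prod = 1 := by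
    rw [hv, ← pow_succ', hk2]
  have hwvB : ∀ a ∈ w ++ rep k w', a ∈ B := by
    intro a ha
    rcases List.mem_append.1 ha with ha | ha
    · exact hw a ha
    · exact hrepB k a ha
  have hwv : ((w ++ rep k w').map f).prod = (w.map f).prod * ((rep k w').map f).prod := by
    rw [List.map_append, List.prod_append]
  have h2 : ρ (((w ++ rep k w').map f).prod) = 1 := by
    rw [hwv, map_mul, h, ← map_mul, h1, map_one]
  obtain ⟨j, hj⟩ := H _ hwvB (by rw [h2, one_mul])
  have hUj := (hU _ hwvB).pow j
  have h3 : ((w ++ rep k w').map f).prod = 1 := by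
    have h4 : ((w ++ rep k w').map f).prod ^ j * ((w ++ rep k w').map f).prod =
        ((w ++ rep k w').map f).prod ^ j * 1 := by
      rw [← pow_succ, hj, mul_one]
    exact hUj.mul_left_cancel h4
  rw [hwv] at h3
  exact hvU.mul_right_cancel (h3.trans h1.symm)

/-- relative form of Schützenberger's theorem -/
theorem relative_aux : ∀ (n : ℕ) (M : Type) [Monoid M] [Finite M], Nat.card M = n →
    ∀ (N : Type) [Monoid N] (ρ : M →* N) (A : Type) [Finite A] (f : A → M) (k : ℕ)
      (B : Finset A), B.card = k →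
      (∀ u : List A, (∀ a ∈ u, a ∈ B) →
        ρ ((u.map f).prod) * ρ ((u.map f).prod) = ρ ((u.map f).prod) →
        ∃ j, (u.map f).prod ^ (j + 1) = (u.map f).prod ^ j) →
      ∀ m : M, Cl (Bas ρ f) {w : List A | (∀ a ∈ w, a ∈ (B : Set A)) ∧ (w.map f).prod = m} := by
  intro n
  induction n using Nat.strong_induction_on with
  | _ n ihn =>
  intro M _ _ hM N _ ρ A _ f k
  induction k using Nat.strong_induction_on with
  | _ k ihk =>
  intro B hBk H m
  classical
  by_cases hall : ∀ a ∈ B, IsUnit (f a)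
  · by_cases hex : ∃ w0 : List A, (∀ a ∈ w0, a ∈ B) ∧ (w0.map f).prod = m
    · obtain ⟨w0, hw0, rfl⟩ := hex
      have h1 : {w : List A | (∀ a ∈ w, a ∈ (B : Set A)) ∧ (w.map f).prod = (w0.map f).prod} =
          {w : List A | ∀ a ∈ w, a ∈ (B : Set A)} ∩
            {w : List A | ρ ((w.map f).prod) = ρ ((w0.map f).prod)} := by
        ext w
        constructor
        · rintro ⟨h2, h3⟩
          exact ⟨h2, by show ρ _ = ρ _; rw [h3]⟩
        · rintro ⟨h2, h3⟩
          exact ⟨h2, unit_case ρ f B H hall (fun a ha => by simpa using h2 a ha) hw0 h3⟩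
      rw [h1]
      exact (Cl.over _).inter (Cl.base ⟨_, rfl⟩)
    · have h1 : {w : List A | (∀ a ∈ w, a ∈ (B : Set A)) ∧ (w.map f).prod = m} = ∅ := by
        ext w
        simp only [Set.mem_empty_iff_false, iff_false]
        rintro ⟨h2, h3⟩
        exact hex ⟨w, fun a ha => by simpa using h2 a ha, h3⟩
      rw [h1]
      exact Cl.empty
  · push Not at hall
    obtain ⟨c, hcB, hc⟩ := hall
    -- words over B \ {c}
    have hB' : ∀ m, Cl (Bas ρ f) {w : List A | (∀ a ∈ w, a ∈ (B : Set A) ∧ a ≠ c) ∧
        (w.map f).prod = m} := by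
      intro m
      have := ihk (B.erase c).card (by
        rw [← hBk]; exact Finset.card_erase_lt_of_mem hcB) (B.erase c) rfl
        (fun u hu => H u (fun a ha => Finset.mem_of_mem_erase (hu a ha))) m
      convert this using 6
      simp [and_comm]
    -- the values of the blocks
    let T : Set M := {m | ∃ v : List A, (∀ a ∈ v, a ∈ (B : Set A) ∧ a ≠ c) ∧
      (v.map f).prod = m}
    have hTfin : T.Finite := Set.toFinite _
    let BT : Finset M := hTfin.toFinset
    have hBT : ∀ m, m ∈ BT ↔ ∃ v : List A, (∀ a ∈ v, a ∈ (B : Set A) ∧ a ≠ c) ∧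
        (v.map f).prod = m := fun m => by simp [BT, T]
    have hblocks : ∀ l : List M, (∀ m ∈ l, m ∈ BT) → ∃ ls : List (List A),
        (∀ v ∈ ls, ∀ a ∈ v, a ∈ (B : Set A) ∧ a ≠ c) ∧ ls.map (fun v => (v.map f).prod) = l := by
      intro l
      induction l with
      | nil => intro _; exact ⟨[], by simp, rfl⟩
      | cons m l ih =>
        intro hl
        obtain ⟨ls, h1, h2⟩ := ih (fun m hm => hl m (by simp [hm]))
        obtain ⟨v, hv1, hv2⟩ := (hBT m).1 (hl m (by simp))
        refine ⟨v :: ls, ?_, by rw [List.map_cons, h2, hv2]⟩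
        intro v' hv'
        rcases List.mem_cons.1 hv' with rfl | hv'
        · exact hv1
        · exact h1 v' hv'
    have henc : ∀ ls : List (List A), (∀ v ∈ ls, ∀ a ∈ v, a ∈ (B : Set A) ∧ a ≠ c) →
        ∀ a ∈ enc c ls, a ∈ B := by
      intro ls hls a ha
      simp only [enc, List.mem_flatten, List.mem_map] at ha
      obtain ⟨_, ⟨v, hv, rfl⟩, ha⟩ := ha
      rcases List.mem_append.1 ha with ha | ha
      · exact by simpa using (hls v hv a ha).1
      · rw [List.mem_singleton.1 ha]; exact hcB
    have Hcond : ∀ l : List M, (∀ m ∈ l, m ∈ BT) →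
        locMap ρ (f c) ((l.map (LocDiv.psi (f c))).prod) *
          locMap ρ (f c) ((l.map (LocDiv.psi (f c))).prod) =
          locMap ρ (f c) ((l.map (LocDiv.psi (f c))).prod) →
        ∃ j, (l.map (LocDiv.psi (f c))).prod ^ (j + 1) =
          (l.map (LocDiv.psi (f c))).prod ^ j := by
      intro l hl hidem
      obtain ⟨ls, hls, rfl⟩ := hblocks l hl
      rcases List.eq_nil_or_concat ls with rfl | ⟨ls', v, rfl⟩
      · exact ⟨0, by simp⟩
      · rw [List.concat_eq_append] at hls hl hidem ⊢
        set p := (((ls' ++ [v]).map (fun v => (v.map f).prod)).map (LocDiv.psi (f c))).prod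
          with hp
        have hp1 : p.1 = f c * ((enc c (ls' ++ [v])).map f).prod := prod_enc f c _
        set X' := ((enc c ls' ++ v).map f).prod with hX'
        set X := ((enc c (ls' ++ [v])).map f).prod with hX
        have hXX : X = X' * f c := by
          rw [hX, hX', enc_append, enc_cons, enc_nil]
          simp [mul_assoc]
        have hxB := henc _ hls
        have hz : p.1 = (f c * X') * f c := by rw [hp1, hXX, mul_assoc]
        have hpow : ∀ n, (f c * X') ^ n * f c = f c * X ^ n := by
          intro n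
          induction n with
          | zero => simp
          | succ n ih => rw [pow_succ, mul_assoc, mul_assoc, ← hXX, ← mul_assoc, ih,
              mul_assoc, ← pow_succ]
        -- the idempotent condition
        have h1 : ρ X ^ 3 = ρ X ^ 2 := by
          have h2 := congrArg Subtype.val hidem
          rw [LocDiv.mul_val _ _ (z := ρ (f c * X'))
            (by rw [locMap_val, hz, map_mul])] at h2
          rw [locMap_val, hz] at h2
          have h3 : ρ X' * (ρ (f c * X') * ρ (f c * X' * f c)) =
              ρ X' * ρ (f c * X' * f c) := by rw [h2]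
          rw [hXX]
          simp only [map_mul] at h3 ⊢
          calc (ρ X' * ρ (f c)) ^ 3
              = ρ X' * (ρ (f c) * ρ X' * (ρ (f c) * ρ X' * ρ (f c))) := by
                simp only [pow_succ, pow_zero, one_mul, mul_assoc]
            _ = ρ X' * (ρ (f c) * ρ X' * ρ (f c)) := h3
            _ = (ρ X' * ρ (f c)) ^ 2 := by
                simp only [pow_succ, pow_zero, one_mul, mul_assoc]
        have h4 : ρ X ^ 4 = ρ X ^ 2 := by rw [pow_succ (ρ X) 3, h1, ← pow_succ, h1]
        have h6 : ρ X ^ 6 = ρ X ^ 3 := by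
          have : ρ X ^ 6 = ρ X ^ 4 * ρ X ^ 2 := by rw [← pow_add]
          rw [this, h4, ← pow_add, h4, h1]
        set x := enc c (ls' ++ [v]) with hx
        obtain ⟨j, hj⟩ := H (x ++ x) (by
          intro a ha
          rcases List.mem_append.1 ha with ha | ha <;> exact hxB a ha) (by
          rw [List.map_append, List.prod_append, ← hX, map_mul]
          have e2 : ρ X * ρ X = ρ X ^ 2 := (pow_two _).symm
          rw [e2, ← pow_add]
          exact h4)
        obtain ⟨i, hi⟩ := H (x ++ (x ++ x)) (by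
          intro a ha
          rcases List.mem_append.1 ha with ha | ha
          · exact hxB a ha
          · rcases List.mem_append.1 ha with ha | ha <;> exact hxB a ha) (by
          rw [List.map_append, List.prod_append, List.map_append, List.prod_append, ← hX,
            map_mul, map_mul]
          have e : ρ X * (ρ X * ρ X) = ρ X ^ 3 := by
            simp only [pow_succ, pow_zero, one_mul, mul_assoc]
          rw [e, ← pow_add]
          exact h6)
        rw [List.map_append, List.prod_append, ← hX, ← pow_two, ← pow_mul, ← pow_mul] at hj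
        rw [List.map_append, List.prod_append, List.map_append, List.prod_append, ← hX] at hi
        have e3 : X * (X * X) = X ^ 3 := by
          simp only [pow_succ, pow_zero, one_mul, mul_assoc]
        rw [e3, ← pow_mul, ← pow_mul] at hi
        have a1 : X ^ (2 * j + 3 * i + 2) = X ^ (2 * j + 3 * i) := by
          have : X ^ (2 * (j + 1)) * X ^ (3 * i) = X ^ (2 * j) * X ^ (3 * i) := by rw [hj]
          rw [← pow_add, ← pow_add] at this
          rw [← this]; congr 1; ring
        have a2 : X ^ (2 * j + 3 * i + 3) = X ^ (2 * j + 3 * i) := by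
          have : X ^ (2 * j) * X ^ (3 * (i + 1)) = X ^ (2 * j) * X ^ (3 * i) := by rw [hi]
          rw [← pow_add, ← pow_add] at this
          rw [← this]; congr 1
        have a3 : X ^ (2 * j + 3 * i + 1) = X ^ (2 * j + 3 * i) := by
          rw [← a2, show 2 * j + 3 * i + 3 = (2 * j + 3 * i + 2) + 1 by ring,
            pow_succ X (2 * j + 3 * i + 2), a1, ← pow_succ]
        refine ⟨2 * j + 3 * i, Subtype.ext ?_⟩
        rw [LocDiv.pow_val p hz, LocDiv.pow_val p hz, hpow, hpow, a3]
    have hloc : ∀ q : LocDiv (f c), Cl (Bas ρ f) (Sig f (B : Set A) c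
        {l : List M | (∀ m ∈ l, m ∈ (BT : Set M)) ∧ (l.map (LocDiv.psi (f c))).prod = q}) := by
      intro q
      refine Sig_cl ρ f (B : Set A) c (by simpa using hcB) hB' ?_
      exact ihn (Nat.card (LocDiv (f c))) (by rw [← hM]; exact card_lt_of_not_isUnit hc)
        (LocDiv (f c)) rfl (LocDiv (ρ (f c))) (locMap ρ (f c)) M (LocDiv.psi (f c)) _ BT rfl
        Hcond q
    let L : M → Set (List A) := fun m =>
      {w : List A | (∀ a ∈ w, a ∈ (B : Set A) ∧ a ≠ c) ∧ (w.map f).prod = m}
    let P : LocDiv (f c) → Set (List A) := fun q =>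
      Sig f (B : Set A) c
        {l : List M | (∀ m ∈ l, m ∈ (BT : Set M)) ∧ (l.map (LocDiv.psi (f c))).prod = q}
    have hU : Cl (Bas ρ f) (L m ∪ ⋃ t : M × LocDiv (f c) × M,
        {w | t.1 * t.2.1.1 * t.2.2 = m ∧
          w ∈ GSH.cat (L t.1) (GSH.cat (GSH.cat {[c]} (P t.2.1)) (L t.2.2))}) := by
      refine (hB' m).union (Cl.iUnion fun t => Cl.prop _ ?_)
      exact (hB' _).cat (((Cl.letter c).cat (hloc _)).cat (hB' _))
    convert hU using 1
    ext w
    constructor
    · rintro ⟨h1, h2⟩
      obtain ⟨ls, v, h3, h4, rfl⟩ := enc_exists (B : Set A) c w h1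
      cases ls with
      | nil =>
        left
        refine ⟨?_, h2⟩
        simpa [enc] using h4
      | cons x ls =>
        right
        rw [Set.mem_iUnion]
        let q : LocDiv (f c) := ((ls.map (fun v => (v.map f).prod)).map (LocDiv.psi (f c))).prod
        have hq : q.1 = f c * ((enc c ls).map f).prod := prod_enc f c ls
        refine ⟨((x.map f).prod, q, (v.map f).prod), ?_, ?_⟩
        · show (x.map f).prod * q.1 * (v.map f).prod = m
          rw [hq, ← h2, enc_cons]
          simp [mul_assoc]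
        · refine ⟨x, ⟨h3 x (by simp), rfl⟩, c :: enc c ls ++ v, ⟨c :: enc c ls,
            ⟨[c], rfl, enc c ls, ⟨ls, fun y hy => h3 y (by simp [hy]), ⟨?_, rfl⟩, rfl⟩, rfl⟩,
            v, ⟨h4, rfl⟩, rfl⟩, ?_⟩
          · intro m hm
            obtain ⟨y, hy, rfl⟩ := List.mem_map.1 hm
            exact (hBT _).2 ⟨y, h3 y (by simp [hy]), rfl⟩
          · rw [enc_cons]; simp
    · rintro (⟨h1, h2⟩ | h)
      · exact ⟨fun a ha => (h1 a ha).1, h2⟩
      · rw [Set.mem_iUnion] at h
        obtain ⟨⟨p1, q, p3⟩, h1, x, ⟨hx1, hx2⟩, _, ⟨_, ⟨_, rfl, _, ⟨ls, h3, h4, rfl⟩, rfl⟩,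
          v, ⟨hv1, hv2⟩, rfl⟩, rfl⟩ := h
        have h1' : p1 * q.1 * p3 = m := h1
        have hx2' : (x.map f).prod = p1 := hx2
        have hv2' : (v.map f).prod = p3 := hv2
        have h4' : ((ls.map (fun v => (v.map f).prod)).map (LocDiv.psi (f c))).prod = q := h4.2
        constructor
        · intro a ha
          simp only [enc, List.mem_append, List.mem_singleton, List.mem_flatten,
            List.mem_map] at ha
          rcases ha with ha | (ha | ⟨_, ⟨y, hy, rfl⟩, ha⟩) | ha
          · exact (hx1 a ha).1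
          · rw [ha]; simpa using hcB
          · rcases List.mem_append.1 ha with ha | ha
            · exact (h3 y hy a ha).1
            · rw [List.mem_singleton.1 ha]; simpa using hcB
          · exact (hv1 a ha).1
        · have hq := prod_enc f c ls
          rw [h4'] at hq
          rw [← h1', ← hx2', ← hv2', hq]
          simp [mul_assoc]

/-- Relative form of Schützenberger's theorem: if the words whose value in `N` is idempotent
have aperiodic value in `M`, the languages recognised by `M` lie in the closure of the languages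
recognised by `N` under Boolean operations and concatenation. -/
theorem relative {M N : Type} [Monoid M] [Finite M] [Monoid N] (ρ : M →* N)
    {A : Type} [Finite A] (f : A → M)
    (H : ∀ u : List A, ρ ((u.map f).prod) * ρ ((u.map f).prod) = ρ ((u.map f).prod) →
        ∃ j, (u.map f).prod ^ (j + 1) = (u.map f).prod ^ j) (m : M) :
    Cl (Bas ρ f) {w : List A | (w.map f).prod = m} := by
  classical
  let _ := Fintype.ofFinite A
  have := relative_aux _ M rfl N ρ A f _ Finset.univ rfl (fun u _ => H u) m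
  simpa using this

end Relative

end Pool.Agent.GSHR
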