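import Pool.Agent.GSHR.Few

/-!
# Groups dividing the syntactic monoid
-/

set_option autoImplicit false

namespace Pool.Agent.GSHR

open Pool.Agent.GSH
open scoped commutatorElement

universe u

variable {A : Type u} {G : Type*} [Group G]

/-- A family of stars that absorbs the concatenation products determines the value of a word of
a subsemigroup `P` in a group quotient of `P`. -/
theorem val_eq_of_stars {L : Set (List A)} {F : Set (Set (List A))} (hF : F.Finite)
    (hD : ∀ K ∈ F, FinData (star K))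
    (habs : ∀ u, Cg (star '' F) u (u ++ u) → ∃ n0, ∀ x y,
      x ++ rep n0 u ++ y ∈ L ↔ x ++ rep (n0 + 1) u ++ y ∈ L)
    {P : Set (List A)} {val : List A → G}
    (hmul : ∀ u ∈ P, ∀ v ∈ P, u ++ v ∈ P ∧ val (u ++ v) = val u * val v)
    (hL : ∀ u ∈ P, ∀ v ∈ P, Cg {L} u v → val u = val v)
    {w w' : List A} (hw : w ∈ P) (hw' : w' ∈ P) (h : Cg (star '' F) w w') : val w = val w' := by
  have hrep : ∀ k, ∀ u ∈ P, rep (k + 1) u ∈ P := by
    intro k u hu
    induction k with
    | zero => simpa [rep_succ, rep_zero] using hu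
    | succ k ih => rw [rep_succ]; exact (hmul _ hu _ ih).1
  have hidem : ∀ u ∈ P, Cg (star '' F) u (u ++ u) → val u = 1 := by
    intro u hu hu2
    obtain ⟨n0, hn0⟩ := habs u hu2
    have e1 : Cg {L} (rep (n0 + 1) u) (rep (n0 + 2) u) := by
      rintro _ rfl x y
      have := hn0 (x ++ u) y
      rw [rep_succ (n0 + 1), rep_succ n0]
      rw [rep_succ n0] at this
      simpa [List.append_assoc] using this
    have e2 := hL _ (hrep n0 u hu) _ (hrep (n0 + 1) u hu) e1
    rw [rep_succ (n0 + 1) u, (hmul _ hu _ (hrep n0 u hu)).2] at e2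
    have e3 : (1 : G) * val (rep (n0 + 1) u) = val u * val (rep (n0 + 1) u) := by rw [one_mul]; exact e2
    exact (mul_right_cancel e3).symm
  obtain ⟨k, hk, hk2⟩ := exists_idem_pow (hF.image star)
    (by rintro _ ⟨K, hK, rfl⟩; exact hD K hK) w'
  obtain ⟨k, rfl⟩ : ∃ d, k = d + 1 := ⟨k - 1, by omega⟩
  set v := rep k w' ++ rep (k + 1) w' with hv
  have hvP : v ∈ P := by
    rcases Nat.eq_zero_or_pos k with rfl | hk0
    · rw [hv, rep_zero]; simpa using hrep 0 w' hw'
    · obtain ⟨d, rfl⟩ : ∃ d, k = d + 1 := ⟨k - 1, by omega⟩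
      exact (hmul _ (hrep d w' hw') _ (hrep _ w' hw')).1
  have hwv : w' ++ v = rep (k + 1) w' ++ rep (k + 1) w' := by
    rw [hv, ← List.append_assoc, ← rep_succ]
  have hi' : Cg (star '' F) (w' ++ v) ((w' ++ v) ++ (w' ++ v)) := by
    rw [hwv]
    exact hk2.symm.trans (hk2.trans (hk2.append hk2))
  have hc : Cg (star '' F) (w ++ v) (w' ++ v) := h.append (Cg.refl _ v)
  have hi : Cg (star '' F) (w ++ v) ((w ++ v) ++ (w ++ v)) :=
    hc.trans (hi'.trans (hc.symm.append hc.symm))
  have h1 := hidem _ (hmul _ hw _ hvP).1 hi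
  have h2 := hidem _ (hmul _ hw' _ hvP).1 hi'
  rw [(hmul _ hw _ hvP).2] at h1
  rw [(hmul _ hw' _ hvP).2] at h2
  exact mul_right_cancel (h1.trans h2.symm)

/-- For every chief factor `M/N` of a group `G` dividing the syntactic monoid of a language of
height at most `n + 1`, one star determines the value modulo the centraliser of `M/N`. -/
theorem chief_divisor {L : Set (List A)} {n : ℕ} (hL : Ht (n + 1) L)
    {P : Set (List A)} {val : List A → G}
    (hmul : ∀ u ∈ P, ∀ v ∈ P, u ++ v ∈ P ∧ val (u ++ v) = val u * val v)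
    (hsurj : ∀ g, ∃ w ∈ P, val w = g)
    (hval : ∀ u ∈ P, ∀ v ∈ P, Cg {L} u v → val u = val v)
    {N M : Subgroup G} (hNn : N.Normal) (hMn : M.Normal) (hNM : N < M)
    (hch : ∀ R : Subgroup G, R.Normal → N ≤ R → R ≤ M → R = N ∨ R = M) :
    ∃ K : Set (List A), Ht n K ∧ ∀ w ∈ P, ∀ w' ∈ P, Cg {star K} w w' → ∀ m ∈ M,
      (val w)⁻¹ * val w' * m * ((val w)⁻¹ * val w')⁻¹ * m⁻¹ ∈ N := by
  classical
  obtain ⟨F, hF, hH, habs⟩ := hL.abs n rfl
  have hD : ∀ K ∈ F, FinData (star K) := fun K hK => ((hH K hK).star).finData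
  have key : ∀ w ∈ P, ∀ w' ∈ P, Cg (star '' F) w w' → val w = val w' :=
    fun w hw w' hw' => val_eq_of_stars hF hD habs hmul hval hw hw'
  -- the alphabet of the words in P
  let c : List P → List A := fun β => (β.map Subtype.val).flatten
  have c_append : ∀ β γ, c (β ++ γ) = c β ++ c γ := by intro β γ; simp [c]
  have c_single : ∀ b : P, c [b] = b.1 := by intro b; simp [c]
  let g : P → G := fun b => val b.1
  have hev : ∀ β : List P, β ≠ [] → c β ∈ P ∧ val (c β) = ev g β := by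
    intro β
    induction β with
    | nil => intro h; exact absurd rfl h
    | cons b β ih =>
      intro _
      by_cases hβ : β = []
      · subst hβ
        rw [c_single]
        exact ⟨b.2, by simp [ev, g]⟩
      · obtain ⟨h1, h2⟩ := ih hβ
        have e : c (b :: β) = b.1 ++ c β := by simp [c]
        obtain ⟨h3, h4⟩ := hmul _ b.2 _ h1
        rw [e]
        refine ⟨h3, ?_⟩
        rw [h4, h2]
        simp [ev, g]
  have hg : Function.Surjective (ev g) := by
    intro x
    obtain ⟨w, hw, rfl⟩ := hsurj x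
    exact ⟨[⟨w, hw⟩], by simp [ev, g]⟩
  let S : Set (Set (List P)) := ⋃ K ∈ F, (fun X : Set (List A) => c ⁻¹' X) '' quots (star K)
  have hS : S.Finite := hF.biUnion (fun K hK => ((hD K hK).quots_finite).image _)
  have hSD : ∀ X ∈ S, FinData X := by
    intro X hX
    obtain ⟨K, hK, Y, ⟨u, v, rfl⟩, rfl⟩ := Set.mem_iUnion₂.1 hX
    obtain ⟨D, hDf, d, hd⟩ := hD K hK
    refine ⟨D, hDf, fun β => d (c β), fun β γ hβγ x y hx => ?_⟩
    have h1 := hd _ _ hβγ (u ++ c x) (c y ++ v)
    simp only [Set.mem_preimage, Set.mem_setOf_eq, c_append, List.append_assoc] at hx h1 ⊢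
    exact h1 hx
  have hSev : ∀ β γ : List P, β ≠ [] → γ ≠ [] → Cg S β γ → ev g β = ev g γ := by
    intro β γ hβ hγ h
    obtain ⟨h1, h2⟩ := hev β hβ
    obtain ⟨h3, h4⟩ := hev γ hγ
    rw [← h2, ← h4]
    refine key _ h1 _ h3 ?_
    rintro _ ⟨K, hK, rfl⟩ x y
    have h5 := h (c ⁻¹' {w | x ++ w ++ y ∈ star K})
      (Set.mem_iUnion₂.2 ⟨K, hK, _, ⟨x, y, rfl⟩, rfl⟩) [] []
    simpa using h5
  have hS3 : ∀ β γ : List P, Cg S β γ → ev g β = ev g γ := by
    intro β γ h
    by_cases hβ : β = []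
    · by_cases hγ : γ = []
      · rw [hβ, hγ]
      · obtain ⟨b, γ', rfl⟩ := List.exists_cons_of_ne_nil hγ
        have h1 := hSev (β ++ [b]) ((b :: γ') ++ [b]) (by simp) (by simp) (h.append (Cg.refl S [b]))
        rw [ev_append, ev_append] at h1
        exact mul_right_cancel h1
    · obtain ⟨b, β', rfl⟩ := List.exists_cons_of_ne_nil hβ
      have h1 := hSev ((b :: β') ++ [b]) (γ ++ [b]) (by simp) (by simp) (h.append (Cg.refl S [b]))
      rw [ev_append, ev_append] at h1
      exact mul_right_cancel h1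
  obtain ⟨X, hX, hX2⟩ := chief_single g hg hS hSD hS3 hNn hMn hNM hch
  obtain ⟨K, hK, Y, ⟨u, v, rfl⟩, rfl⟩ := Set.mem_iUnion₂.1 hX
  refine ⟨K, hH K hK, fun w hw w' hw' hww m hm => ?_⟩
  have h1 := hX2 [⟨w, hw⟩] [⟨w', hw'⟩] (by
    rintro _ rfl x y
    have h2 := hww (star K) rfl (u ++ c x) (c y ++ v)
    simp only [Set.mem_preimage, Set.mem_setOf_eq, c_append, c_single, List.append_assoc] at h2 ⊢
    exact h2) m hm
  simpa [ev, g] using h1

end Pool.Agent.GSHR
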