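import Pool.Agent.GSHR.Cl
import Pool.Agent.GSHR.Divisor

/-!
# A criterion for generalized star height at most `n + 1`
-/

set_option autoImplicit false

namespace Pool.Agent.GSHR

open Pool.Agent.GSH

variable {A : Type}

theorem Cg.transR {S : Set (Set (List A))} {u v w : List A} (h : Cg S u v) (h' : Cg S v w) :
    Cg S u w := h.trans h'

/-- the syntactic congruence of a family of languages -/
def cgSetoid (S : Set (Set (List A))) : Setoid (List A) :=
  ⟨Cg S, ⟨Cg.refl S, fun h => h.symm, fun h h' => h.trans h'⟩⟩

/-- the syntactic monoid of a family of languages -/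
def Syn (S : Set (Set (List A))) : Type := Quotient (cgSetoid S)

/-- the class of a word -/
def cls (S : Set (Set (List A))) (w : List A) : Syn S := Quotient.mk (cgSetoid S) w

theorem cls_eq {S : Set (Set (List A))} {w w' : List A} : cls S w = cls S w' ↔ Cg S w w' :=
  ⟨fun h => Quotient.exact h, fun h => Quotient.sound h⟩

theorem cls_surj {S : Set (Set (List A))} (x : Syn S) : ∃ w, cls S w = x :=
  Quotient.exists_rep x

instance (S : Set (Set (List A))) : Monoid (Syn S) where
  mul x y := Quotient.map₂ (sa := cgSetoid S) (sb := cgSetoid S) (sc := cgSetoid S)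
    (fun u v => u ++ v) (fun _ _ h _ _ h' => Cg.append h h') x y
  one := cls S []
  mul_assoc x y z := by
    obtain ⟨u, rfl⟩ := cls_surj x
    obtain ⟨v, rfl⟩ := cls_surj y
    obtain ⟨w, rfl⟩ := cls_surj z
    show cls S (u ++ v ++ w) = cls S (u ++ (v ++ w))
    rw [List.append_assoc]
  one_mul x := by
    obtain ⟨u, rfl⟩ := cls_surj x
    show cls S ([] ++ u) = cls S u
    rw [List.nil_append]
  mul_one x := by
    obtain ⟨u, rfl⟩ := cls_surj x
    show cls S (u ++ []) = cls S u
    rw [List.append_nil]

theorem cls_append {S : Set (Set (List A))} (u v : List A) :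
    cls S (u ++ v) = cls S u * cls S v := rfl

theorem cls_nil {S : Set (Set (List A))} : cls S [] = 1 := rfl

theorem cls_rep {S : Set (Set (List A))} (k : ℕ) (u : List A) :
    cls S (rep k u) = cls S u ^ k := by
  induction k with
  | zero => rw [rep_zero, pow_zero, cls_nil]
  | succ k ih => rw [rep_succ, cls_append, ih, pow_succ']

theorem cls_prod {S : Set (Set (List A))} (w : List A) :
    (w.map (fun a => cls S [a])).prod = cls S w := by
  induction w with
  | nil => rfl
  | cons a w ih => rw [List.map_cons, List.prod_cons, ih, ← cls_append]; rfl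

theorem syn_finite {S : Set (Set (List A))} (hS : S.Finite) (hF : ∀ L ∈ S, FinData L) :
    Finite (Syn S) := by
  classical
  let Q : Set (Set (List A)) := ⋃ L ∈ S, quots L
  have hQ : Q.Finite := hS.biUnion (fun L hL => (hF L hL).quots_finite)
  have := hQ.to_subtype
  let ty : List A → Set Q := fun w => {X : Q | w ∈ X.1}
  have hty : ∀ w w', ty w = ty w' ↔ Cg S w w' := by
    intro w w'
    constructor
    · intro h L hL x y
      have hX : {v | x ++ v ++ y ∈ L} ∈ Q := Set.mem_biUnion hL ⟨x, y, rfl⟩
      exact Set.ext_iff.1 h ⟨_, hX⟩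
    · intro h
      ext ⟨X, hX⟩
      obtain ⟨L, hL, x, y, rfl⟩ := Set.mem_iUnion₂.1 hX
      exact h L hL x y
  let g : Syn S → Set Q := Quotient.lift ty (fun w w' h => (hty w w').2 h)
  refine Finite.of_injective g ?_
  intro x y hxy
  obtain ⟨u, rfl⟩ := cls_surj x
  obtain ⟨v, rfl⟩ := cls_surj y
  exact cls_eq.2 ((hty u v).1 hxy)

/-- the map of syntactic monoids for a subfamily -/
def synMap {S S' : Set (Set (List A))} (h : S ⊆ S') : Syn S' →* Syn S where
  toFun := Quotient.map' (s₁ := cgSetoid S') (s₂ := cgSetoid S) id (fun _ _ h' => Cg.mono h h')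
  map_one' := rfl
  map_mul' x y := by
    obtain ⟨u, rfl⟩ := cls_surj x
    obtain ⟨v, rfl⟩ := cls_surj y
    rfl

theorem synMap_cls {S S' : Set (Set (List A))} (h : S ⊆ S') (w : List A) :
    synMap h (cls S' w) = cls S w := rfl

/-- the classes of the joint syntactic congruence of stars -/
theorem class_ht {n : ℕ} {F : Set (Set (List A))} (hF : F.Finite) (hH : ∀ K ∈ F, Ht n K)
    (w0 : List A) : Ht (n + 1) {w : List A | Cg (star '' F) w w0} := by
  have hfin : (⋃ X ∈ star '' F, quots X).Finite := by
    refine (hF.image _).biUnion ?_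
    rintro _ ⟨K, hK, rfl⟩
    exact ((hH K hK).star.finData).quots_finite
  have h3 := mem_closure_of_determined hfin (L := {w : List A | Cg (star '' F) w w0}) (by
    intro w w' hw hwL
    have h1 : Cg (star '' F) w' w := by
      intro X hX x y
      exact (hw {v | x ++ v ++ y ∈ X} (Set.mem_biUnion hX ⟨x, y, rfl⟩)).symm
    exact h1.trans hwL)
  refine BooleanSubalgebra.closure_bot_sup_induction (p := fun X _ => Ht (n + 1) X)
    ?_ ?_ ?_ ?_ h3
  · intro X hX
    obtain ⟨Y, ⟨K, hK, rfl⟩, u, v, rfl⟩ := Set.mem_iUnion₂.1 hX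
    exact (hH K hK).star.quot u v
  · exact Ht.empty _
  · intro a _ b _ ha hb
    exact ha.union hb
  · intro a _ ha
    exact ha.compl

/-- **Criterion.** A language with finite syntactic monoid has height at most `n + 1` as soon as
there are finitely many languages of height at most `n` such that every word `u` which is
idempotent for the syntactic congruences of their stars is aperiodic for the language. -/
theorem criterion [Finite A] {L : Set (List A)} (hL : FinData L) {n : ℕ}
    {F : Set (Set (List A))} (hF : F.Finite) (hH : ∀ K ∈ F, Ht n K)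
    (hab : ∀ u, Cg (star '' F) u (u ++ u) → ∃ k, Cg {L} (rep (k + 1) u) (rep k u)) :
    Ht (n + 1) L := by
  classical
  set S₀ := star '' F with hS₀
  set S := insert L S₀ with hSdef
  have hS₀fin : S₀.Finite := hF.image _
  have hSfin : S.Finite := hS₀fin.insert L
  have hSD : ∀ X ∈ S, FinData X := by
    rintro X (rfl | ⟨K, hK, rfl⟩)
    · exact hL
    · exact (hH K hK).star.finData
  have hfinS := syn_finite hSfin hSD
  have hsub : S₀ ⊆ S := Set.subset_insert _ _
  have hrel := relative (synMap hsub) (fun a : A => cls S [a]) (by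
    intro u hu
    rw [cls_prod] at hu ⊢
    rw [synMap_cls, ← cls_append, cls_eq] at hu
    have hu' : Cg S₀ u (u ++ u) := hu.symm
    obtain ⟨k, hk⟩ := hab u hu'
    refine ⟨k + 1, ?_⟩
    rw [← cls_rep, ← cls_rep, cls_eq]
    have e1 : Cg {L} (rep (k + 1 + 1) u) (rep (k + 1) u) := by
      rw [rep_succ (k + 1), rep_succ k]
      have := (Cg.refl {L} u).append hk
      rwa [rep_succ k] at this
    have e2 : Cg S₀ (rep (k + 1 + 1) u) (rep (k + 1) u) := by
      rw [rep_succ (k + 1), rep_succ k, ← List.append_assoc]
      exact hu.append (Cg.refl S₀ _)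
    rintro X (rfl | hX)
    · exact e1 _ rfl
    · exact e2 X hX)
  have hbase : ∀ X ∈ Bas (synMap hsub) (fun a : A => cls S [a]), Ht (n + 1) X := by
    rintro X ⟨x, rfl⟩
    obtain ⟨w0, rfl⟩ := cls_surj x
    have : {w : List A | synMap hsub ((w.map (fun a : A => cls S [a])).prod) = cls S₀ w0} =
        {w : List A | Cg (star '' F) w w0} := by
      ext w
      show synMap hsub ((w.map (fun a : A => cls S [a])).prod) = cls S₀ w0 ↔ Cg S₀ w w0
      rw [cls_prod, synMap_cls, cls_eq]
    rw [this]
    exact class_ht hF hH w0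
  have hall : ∀ x : Syn S, Ht (n + 1) {w : List A | cls S w = x} := by
    intro x
    have h1 := (hrel x).ht hbase
    have : {w : List A | cls S w = x} =
        {w : List A | (w.map (fun a : A => cls S [a])).prod = x} := by
      ext w
      show cls S w = x ↔ (w.map (fun a : A => cls S [a])).prod = x
      rw [cls_prod]
    rw [this]; exact h1
  have hU : L = ⋃ x : Syn S, {w : List A | (∃ v ∈ L, cls S v = x) ∧
      w ∈ {w : List A | cls S w = x}} := by
    ext w
    simp only [Set.mem_iUnion]
    constructor
    · intro hw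
      exact ⟨cls S w, ⟨w, hw, rfl⟩, rfl⟩
    · rintro ⟨x, ⟨v, hv, hvx⟩, hw⟩
      have hw' : cls S w = x := hw
      have h2 : Cg S w v := cls_eq.1 (hw'.trans hvx.symm)
      have h3 := h2 L (Set.mem_insert _ _) [] []
      simp only [List.nil_append, List.append_nil] at h3
      exact h3.2 hv
  rw [hU]
  exact Ht.iUnion (fun x => Ht.prop _ (hall x))

end Pool.Agent.GSHR
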