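import Pool.Agent.GSH.Simple

/-!
# Chief factors and single stars
-/

set_option autoImplicit false

namespace Pool.Agent.GSHR

open Pool.Agent.GSH
open scoped commutatorElement

universe u

variable {A : Type u} {G : Type*} [Group G]

/-- The family of normal subgroups attached to the subfamilies of a family of languages that
determines the value in the group. -/
theorem exists_local (f : A → G)
    (hf : Function.Surjective (ev f)) {S : Set (Set (List A))} (hS : S.Finite)
    (hF : ∀ L ∈ S, FinData L)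
    (h : ∀ w w', Cg S w w' → ev f w = ev f w') :
    ∃ N : Set (Set (List A)) → Subgroup G,
      (∀ S', S' ⊆ S → (N S').Normal) ∧
      (∀ g, g ∈ N ∅) ∧
      (∀ S₁ S₂, S₁ ⊆ S → S₂ ⊆ S → ∀ a ∈ N S₁, ∀ b ∈ N S₂, a * b * a⁻¹ * b⁻¹ ∈ N (S₁ ∪ S₂)) ∧
      (∀ g ∈ N S, g = 1) ∧
      (∀ S', S' ⊆ S → ∀ w w', Cg S' w w' → ev f w * (ev f w')⁻¹ ∈ N S') := by
  classical
  obtain ⟨e, he, hu⟩ := exists_group_word (S := S) hS hF
  have he1 : ev f e = 1 := by
    have := h _ _ he
    rw [ev_append] at this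
    exact (mul_eq_left.1 this.symm)
  -- local elements
  let loc : List A → Prop := fun x => Cg S (e ++ x ++ e) x
  have loc_l : ∀ x, loc x → Cg S (e ++ x) x := by
    intro x hx
    have h1 := (Cg.refl S e).append hx.symm
    have h2 := he.symm.append (Cg.refl S (x ++ e))
    have h3 : Cg S (e ++ (e ++ x ++ e)) (e ++ x ++ e) := by
      simpa [List.append_assoc] using h2
    exact h1.trans (h3.trans hx)
  have loc_r : ∀ x, loc x → Cg S (x ++ e) x := by
    intro x hx
    have h1 := hx.symm.append (Cg.refl S e)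
    have h2 := (Cg.refl S (e ++ x)).append he.symm
    have h3 : Cg S (e ++ x ++ e ++ e) (e ++ x ++ e) := by
      simpa [List.append_assoc] using h2
    exact h1.trans (h3.trans hx)
  have loc_mk : ∀ x, loc (e ++ x ++ e) := by
    intro x
    show Cg _ _ _
    have h1 := (he.symm.append (Cg.refl S x)).append he.symm
    simpa [List.append_assoc] using h1
  have loc_mul : ∀ x y, loc x → loc y → loc (x ++ y) := by
    intro x y hx hy
    have h1 := (loc_l x hx).append (loc_r y hy)
    show Cg _ _ _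
    simpa [List.append_assoc] using h1
  have loc_e : loc e := by
    show Cg _ _ _
    exact (he.symm.append (Cg.refl _ e)).trans he.symm
  have loc_inv : ∀ x, loc x → ∃ y, loc y ∧ Cg S (x ++ y) e ∧ Cg S (y ++ x) e := by
    intro x hx
    obtain ⟨k, hk, hk'⟩ := hu x
    have hk2 : Cg S (rep k x) e := ((Cg.rep hx k).symm).trans hk'
    obtain ⟨k, rfl⟩ : ∃ d, k = d + 1 := ⟨k - 1, by omega⟩
    refine ⟨e ++ rep k x ++ e, loc_mk _, ?_, ?_⟩
    · have h1 : Cg S (x ++ e ++ rep k x ++ e) (x ++ rep k x ++ e) :=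
        ((loc_r x hx).append (Cg.refl _ (rep k x))).append (Cg.refl _ e)
      have h2 : Cg S (x ++ rep k x ++ e) (e ++ e) := by
        rw [← rep_succ]; exact hk2.append (Cg.refl _ e)
      have h3 := h1.trans (h2.trans he.symm)
      simpa [List.append_assoc] using h3
    · have h1 : Cg S (e ++ rep k x ++ (e ++ x)) (e ++ rep k x ++ x) :=
        (Cg.refl _ (e ++ rep k x)).append (loc_l x hx)
      have h2 : Cg S (e ++ (rep k x ++ x)) (e ++ e) := by
        rw [← rep_succ']; exact (Cg.refl _ e).append hk2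
      have h3 : Cg S (e ++ rep k x ++ (e ++ x)) e := by
        refine h1.trans ?_
        rw [List.append_assoc]
        exact h2.trans he.symm
      simpa [List.append_assoc] using h3
  have sub_of : ∀ S' : Set (Set (List A)), ∃ N : Subgroup G, S' ⊆ S → (N.Normal ∧
      ∀ g, g ∈ N ↔ ∃ x, loc x ∧ Cg S' x e ∧ ev f x = g) := by
    intro S'
    by_cases hS' : S' ⊆ S
    swap
    · exact ⟨⊥, fun h => absurd h hS'⟩
    refine ⟨⟨⟨⟨{g | ∃ x, loc x ∧ Cg S' x e ∧ ev f x = g}, ?_⟩, ?_⟩, ?_⟩,
      fun _ => ⟨⟨?_⟩, fun g => Iff.rfl⟩⟩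
    · rintro _ _ ⟨x, hx, hx', rfl⟩ ⟨y, hy, hy', rfl⟩
      refine ⟨x ++ y, loc_mul x y hx hy, (hx'.append hy').trans (he.mono hS').symm, ?_⟩
      rw [ev_append]
    · exact ⟨e, loc_e, Cg.refl _ _, he1⟩
    · rintro _ ⟨x, hx, hx', rfl⟩
      obtain ⟨y, hy, hxy, hyx⟩ := loc_inv x hx
      refine ⟨y, hy, ?_, ?_⟩
      · -- y ≡ e y ≡ x y ≡ e
        exact ((loc_l y hy).mono hS').symm.trans
          ((hx'.symm.append (Cg.refl S' y)).trans (hxy.mono hS'))
      · have := h _ _ hxy
        rw [ev_append, he1] at this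
        exact (eq_inv_of_mul_eq_one_right this)
    · rintro _ ⟨x, hx, hx', rfl⟩ g
      obtain ⟨t, rfl⟩ := hf g
      obtain ⟨y, hy, hty, hyt⟩ := loc_inv (e ++ t ++ e) (loc_mk t)
      refine ⟨(e ++ t ++ e) ++ x ++ y, loc_mul _ _ (loc_mul _ _ (loc_mk t) hx) hy, ?_, ?_⟩
      · have h1 := ((Cg.refl S' (e ++ t ++ e)).append hx').append (Cg.refl S' y)
        have h2 := ((loc_r (e ++ t ++ e) (loc_mk t)).mono hS').append (Cg.refl S' y)
        exact h1.trans (h2.trans (hty.mono hS'))
      · have := h _ _ hty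
        rw [ev_append, he1] at this
        have h3 := eq_inv_of_mul_eq_one_right this
        rw [ev_append, ev_append, h3]
        simp [ev_append, he1]
  choose N hN using sub_of
  refine ⟨N, fun S' hS' => (hN S' hS').1, ?_, ?_, ?_, ?_⟩
  · intro g
    rw [(hN ∅ (Set.empty_subset _)).2]
    obtain ⟨t, rfl⟩ := hf g
    refine ⟨e ++ t ++ e, loc_mk t, fun L hL => hL.elim, ?_⟩
    simp [ev_append, he1]
  · intro S₁ S₂ hS₁ hS₂ a ha b hb
    rw [(hN _ (Set.union_subset hS₁ hS₂)).2]
    obtain ⟨x, hx, hx', rfl⟩ := ((hN _ hS₁).2 a).1 ha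
    obtain ⟨y, hy, hy', rfl⟩ := ((hN _ hS₂).2 b).1 hb
    obtain ⟨x', hxl, hxx, hxx'⟩ := loc_inv x hx
    obtain ⟨y', hyl, hyy, hyy'⟩ := loc_inv y hy
    -- x y x' y' ≡ e modulo both
    have hx'e : Cg S₁ x' e :=
      ((loc_l x' hxl).mono hS₁).symm.trans
          ((hx'.symm.append (Cg.refl S₁ x')).trans (hxx.mono hS₁))
    have hy'e : Cg S₂ y' e :=
      ((loc_l y' hyl).mono hS₂).symm.trans
          ((hy'.symm.append (Cg.refl S₂ y')).trans (hyy.mono hS₂))
    have c1 : Cg S₁ (x ++ y ++ x' ++ y') e := by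
      have a1 := ((hx'.append (Cg.refl S₁ y)).append hx'e).append (Cg.refl S₁ y')
      have a3 : Cg S (e ++ y ++ e ++ y') (y ++ y') := hy.append (Cg.refl _ y')
      exact a1.trans ((a3.trans hyy).mono hS₁)
    have c2 : Cg S₂ (x ++ y ++ x' ++ y') e := by
      have a1 := (((Cg.refl S₂ x).append hy').append (Cg.refl S₂ x')).append hy'e
      have a3 : Cg S (x ++ e ++ x' ++ e) (x ++ x' ++ e) :=
        ((loc_r x hx).append (Cg.refl _ x')).append (Cg.refl _ e)
      have a4 : Cg S (x ++ x' ++ e) (e ++ e) := hxx.append (Cg.refl _ e)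
      exact a1.trans ((a3.trans (a4.trans he.symm)).mono hS₂)
    have h2 := h _ _ hxx
    have h3 := h _ _ hyy
    rw [ev_append, he1] at h2 h3
    have h2' := eq_inv_of_mul_eq_one_right h2
    have h3' := eq_inv_of_mul_eq_one_right h3
    refine ⟨x ++ y ++ x' ++ y', loc_mul _ _ (loc_mul _ _ (loc_mul _ _ hx hy) hxl) hyl,
      c1.union c2, ?_⟩
    rw [ev_append, ev_append, ev_append, h2', h3']
  · intro g hg
    obtain ⟨x, hx, hx', rfl⟩ := ((hN S subset_rfl).2 g).1 hg
    rw [h _ _ hx', he1]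
  · intro S' hS' w w' hw
    obtain ⟨y, hy, hwy, _⟩ := loc_inv (e ++ w' ++ e) (loc_mk w')
    have h2 := h _ _ hwy
    rw [ev_append, he1] at h2
    have h2' := eq_inv_of_mul_eq_one_right h2
    rw [(hN S' hS').2]
    refine ⟨(e ++ w ++ e) ++ y, loc_mul _ _ (loc_mk w) hy, ?_, ?_⟩
    · have h1 := (((Cg.refl S' e).append hw).append (Cg.refl S' e)).append (Cg.refl S' y)
      exact h1.trans (hwy.mono hS')
    · rw [ev_append, h2']
      simp [ev_append, he1]

/-- For a chief factor `M/N`, one language of a determining family determines the value modulo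
the centraliser of `M/N`. -/
theorem chief_single (f : A → G)
    (hf : Function.Surjective (ev f)) {S : Set (Set (List A))} (hS : S.Finite)
    (hF : ∀ L ∈ S, FinData L)
    (h : ∀ w w', Cg S w w' → ev f w = ev f w')
    {N M : Subgroup G} (hNn : N.Normal) (hMn : M.Normal) (hNM : N < M)
    (hch : ∀ R : Subgroup G, R.Normal → N ≤ R → R ≤ M → R = N ∨ R = M) :
    ∃ L ∈ S, ∀ w w', Cg {L} w w' → ∀ m ∈ M,
      (ev f w)⁻¹ * ev f w' * m * ((ev f w)⁻¹ * ev f w')⁻¹ * m⁻¹ ∈ N := by
  classical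
  obtain ⟨P, hP1, hP2, hP3, hP4, hP5⟩ := exists_local f hf hS hF h
  by_contra hcon
  push Not at hcon
  -- every single language has M = [P L, M] N
  have key : ∀ L ∈ S, ⁅P {L}, M⁆ ⊔ N = M := by
    intro L hL
    obtain ⟨w, w', hw, m, hm, hne⟩ := hcon L hL
    have hsub : ({L} : Set (Set (List A))) ⊆ S := by simpa using hL
    have hPn := hP1 {L} hsub
    have hg := hP5 {L} hsub w w' hw
    have hg' : (ev f w)⁻¹ * ev f w' ∈ P {L} := by
      have h1 := hPn.conj_mem _ (inv_mem hg) (ev f w)⁻¹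
      simpa [mul_assoc] using h1
    have hle : ⁅P {L}, M⁆ ≤ M := Subgroup.commutator_le_right _ _
    have hR : (⁅P {L}, M⁆ ⊔ N).Normal := inferInstance
    rcases hch _ hR le_sup_right (sup_le hle hNM.le) with h1 | h1
    · exfalso
      apply hne
      rw [← h1]
      apply Subgroup.mem_sup_left
      have := Subgroup.commutator_mem_commutator hg' hm
      simpa [commutatorElement_def] using this
    · exact h1
  have main : ∀ S' : Set (Set (List A)), S'.Finite → S' ⊆ S → M ≤ P S' ⊔ N := by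
    intro S' hfin
    induction S', hfin using Set.Finite.induction_on with
    | empty =>
      intro _ m _
      exact Subgroup.mem_sup_left (hP2 m)
    | @insert L S' _ _ ih =>
      intro hsub
      have hL : L ∈ S := hsub (Set.mem_insert _ _)
      have hS' : S' ⊆ S := fun x hx => hsub (Set.mem_insert_of_mem _ hx)
      have hLs : ({L} : Set (Set (List A))) ⊆ S := by simpa using hL
      have ih' := ih hS'
      have hn := hP1 _ hsub
      have hn' := hP1 _ hS'
      have hnL := hP1 _ hLs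
      rw [← key L hL]
      refine sup_le ?_ le_sup_right
      rw [Subgroup.commutator_le]
      intro a ha b hb
      obtain ⟨b₁, hb₁, b₂, hb₂, rfl⟩ := Subgroup.mem_sup_of_normal_right.1 (ih' hb)
      have e1 : ⁅a, b₁ * b₂⁆ = (a * b₁ * a⁻¹ * b₁⁻¹) * (b₁ * (a * b₂ * a⁻¹ * b₂⁻¹) * b₁⁻¹) := by
        rw [commutatorElement_def]; group
      rw [e1]
      refine mul_mem (Subgroup.mem_sup_left ?_) (Subgroup.mem_sup_right ?_)
      · have := hP3 _ _ hLs hS' a ha b₁ hb₁
        rwa [Set.singleton_union] at this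
      · exact hNn.conj_mem _ (mul_mem (hNn.conj_mem _ hb₂ a) (inv_mem hb₂)) b₁
  have h1 := main S hS subset_rfl
  apply hNM.not_ge
  refine h1.trans (sup_le ?_ le_rfl)
  intro g hg
  rw [hP4 g hg]
  exact one_mem _

end Pool.Agent.GSHR
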